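import Mathlib
import Pool.Agent.H817R5.EP.Stubs

/-!
# Erdos problem 676 (MP_1626ca_nt), task LOW (helper77)
-/

set_option autoImplicit false

open Finset

namespace Pool.Agent.H77R5.EP

open Pool.Agent.H817R5.EP

theorem LOW_swap (X H : ℕ) (Y : Finset ℕ) (hY : Y ⊆ Ico X (2 * X)) (hH : H ≤ X)
    (cond : ℕ → Prop) [DecidablePred cond] :
    ∑ m ∈ (Ico X (3 * X)).filter cond, ∑ y ∈ Y, ∑ r ∈ range H, (if y + r = m then (1 : ℝ) else 0) =
      ∑ y ∈ Y, ∑ r ∈ range H, if cond (y + r) then (1 : ℝ) else 0 := by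
  rw [Finset.sum_comm]
  refine Finset.sum_congr rfl fun y hy => ?_
  rw [Finset.sum_comm]
  refine Finset.sum_congr rfl fun r hr => ?_
  rw [Finset.sum_ite_eq]
  have h1 := Finset.mem_Ico.mp (hY hy)
  have h2 := Finset.mem_range.mp hr
  have h3 : y + r ∈ Ico X (3 * X) := Finset.mem_Ico.mpr ⟨by omega, by omega⟩
  simp only [Finset.mem_filter, h3, true_and]

theorem LOW_den (S : Finset ℕ) : den id S = ∏ p ∈ S, 1 / (p : ℝ) := by
  unfold den
  refine Finset.prod_congr rfl fun q _ => ?_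
  by_cases hq : (q : ℝ) = 0
  · simp [hq]
  · simp only [id]
    field_simp

theorem LOW_prod_inj (z : ℕ) (S T : Finset ℕ) (hS : S ⊆ primesTo z) (hT : T ⊆ primesTo z)
    (h : ∏ p ∈ S, p = ∏ p ∈ T, p) : S = T := by
  have hp : ∀ p ∈ primesTo z, p.Prime := fun p hp => (Finset.mem_filter.mp hp).2
  have hf : ∀ S : Finset ℕ, S ⊆ primesTo z → (∏ p ∈ S, p).primeFactors = S := by
    intro S hS
    exact Nat.primeFactors_prod (fun p hpS => hp p (hS hpS))
  rw [← hf S hS, ← hf T hT, h]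

theorem LOW_card (z L : ℕ) (D : Finset (Finset ℕ)) (hD : ∀ T ∈ D, T ⊆ primesTo z)
    (hL : ∀ T ∈ D, ∏ p ∈ T, p ≤ L) :
    (∑ T ∈ D, ∏ q ∈ T, ((id q : ℕ) : ℝ)) ≤ (L : ℝ) ^ 2 := by
  have h1 : D.card ≤ L := by
    have h2 : D.card ≤ (Icc 1 L).card := by
      apply Finset.card_le_card_of_injOn (fun T => ∏ p ∈ T, p)
      · intro T hT
        have hT' : T ∈ D := hT
        have hpos : 0 < ∏ p ∈ T, p := Finset.prod_pos fun p hp =>
          ((Finset.mem_filter.mp (hD T hT' hp)).2).pos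
        exact Finset.mem_coe.mpr (Finset.mem_Icc.mpr ⟨hpos, hL T hT'⟩)
      · intro S hS T hT h
        exact LOW_prod_inj z S T (hD S hS) (hD T hT) h
    simpa using h2
  calc (∑ T ∈ D, ∏ q ∈ T, ((id q : ℕ) : ℝ)) ≤ ∑ T ∈ D, (L : ℝ) := by
        refine Finset.sum_le_sum fun T hT => ?_
        have h3 : ((∏ p ∈ T, p : ℕ) : ℝ) ≤ L := by exact_mod_cast hL T hT
        rw [Nat.cast_prod] at h3
        simpa only [id] using h3
    _ = D.card * L := by rw [Finset.sum_const, nsmul_eq_mul]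
    _ ≤ L * L := by
        have : (D.card : ℝ) ≤ L := by exact_mod_cast h1
        exact mul_le_mul_of_nonneg_right this (Nat.cast_nonneg _)
    _ = (L : ℝ) ^ 2 := by ring

open Classical in
/-- LOW -/
theorem low (hva : St_VA) : St_LOW := by
  intro B K h1 h2 hK hFL h20 h21 h1h hB
  obtain ⟨δ', hδ', X1', hVA⟩ := hva h1 h2 (1 / 4) h20 h21 h1h (by norm_num)
  -- large `X`
  have ev1 : ∀ᶠ X : ℕ in Filter.atTop, (K : ℝ) ^ 2 ≤ (X : ℝ) ^ (1 / 8 : ℝ) :=
    ((tendsto_rpow_atTop (by norm_num : (0 : ℝ) < 1 / 8)).comp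
      tendsto_natCast_atTop_atTop).eventually_ge_atTop _
  have ev2 : ∀ᶠ X : ℕ in Filter.atTop, (K : ℝ) * (1 + Real.log X) ≤ (X : ℝ) ^ (δ' / 2) := by
    have h3 : (fun x : ℝ => (K : ℝ) * (1 + Real.log x)) =o[Filter.atTop]
        fun x : ℝ => x ^ (δ' / 2) := by
      apply Asymptotics.IsLittleO.const_mul_left
      apply Asymptotics.IsLittleO.add
      · exact Asymptotics.isLittleO_const_left.mpr (Or.inr (by
          have := tendsto_rpow_atTop (half_pos hδ')
          exact tendsto_norm_atTop_atTop.comp this))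
      · exact isLittleO_log_rpow_atTop (half_pos hδ')
    have h4 := h3.bound (by norm_num : (0 : ℝ) < 1)
    have h5 := tendsto_natCast_atTop_atTop.eventually h4
    filter_upwards [h5, Filter.eventually_ge_atTop 1] with X hX hX1
    rw [one_mul, Real.norm_eq_abs, Real.norm_eq_abs,
      abs_of_nonneg (Real.rpow_nonneg (Nat.cast_nonneg X) _)] at hX
    exact (le_abs_self _).trans hX
  obtain ⟨X1, hX1⟩ := Filter.eventually_atTop.mp
    (ev1.and (ev2.and ((Filter.eventually_ge_atTop X1').and (Filter.eventually_ge_atTop 1))))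
  refine ⟨δ' / 2, half_pos hδ', X1, ?_⟩
  intro X hX z H Y hz hzX hXH hHX hY
  obtain ⟨e1, e2, e3, e4⟩ := hX1 X hX
  have hXr : (1 : ℝ) ≤ X := by exact_mod_cast e4
  have hX0 : (0 : ℝ) < X := by linarith
  have hz1 : (1 : ℝ) ≤ z := by exact_mod_cast (by omega : 1 ≤ z)
  have hz0 : (0 : ℝ) < z := by linarith
  set hit : ℕ → ℕ → Prop := fun q m => m % q ^ 2 < q with hhit
  set w : ℕ → ℝ := fun m => ∑ y ∈ Y, ∑ r ∈ range H, (if y + r = m then (1 : ℝ) else 0) with hw
  set D : Finset (Finset ℕ) :=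
    (primesTo z).powerset.filter (fun S : Finset ℕ => ∏ p ∈ S, p ≤ K * z ^ B) with hD
  set E : Finset ℕ → ℝ := fun S => ∑ m ∈ (Ico X (3 * X)).filter (fun m => ∀ p ∈ S, hit p m), w m -
    (Y.card * H : ℝ) * ∏ p ∈ S, 1 / (p : ℝ) with hE
  have hfl := hFL z hz (Ico X (3 * X)) w hit (Y.card * H : ℝ)
    (fun m _ => Finset.sum_nonneg fun y _ => Finset.sum_nonneg fun r _ => by
      split_ifs <;> norm_num) (by positivity)
  have hE' : ∀ S, E S = ∑ y ∈ Y, ∑ r ∈ range H, (ind id S (y + r) - den id S) := by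
    intro S
    simp only [hE]
    rw [LOW_swap X H Y hY hHX, LOW_den]
    simp only [Finset.sum_sub_distrib, Finset.sum_const, Finset.card_range, nsmul_eq_mul]
    rw [mul_assoc]
    congr 1
  -- the error
  have hDsub : ∀ T ∈ D, T ⊆ primesTo z := fun T hT =>
    Finset.mem_powerset.mp (Finset.mem_filter.mp hT).1
  have herr : ∑ S ∈ D, |E S| ≤ (X : ℝ) ^ (1 - δ') * H := by
    set lam : Finset ℕ → ℝ := fun S => if 0 ≤ E S then 1 else -1 with hlam
    have hlam1 : ∀ T, |lam T| ≤ 1 := by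
      intro T
      simp only [hlam]
      split_ifs <;> simp
    have hadm : Adm id (primesTo z) z := by
      intro q hq
      have h3 := Finset.mem_filter.mp hq
      have h4 := Finset.mem_Icc.mp h3.1
      exact ⟨h3.2, h4.2, h4.1, by simp only [id]; omega⟩
    have hsum : (∑ T ∈ D, ∏ q ∈ T, ((id q : ℕ) : ℝ)) ≤ (X : ℝ) ^ (1 / 2 - 1 / 4 : ℝ) := by
      refine (LOW_card z (K * z ^ B) D hDsub fun T hT => (Finset.mem_filter.mp hT).2).trans ?_
      have h3 : ((K * z ^ B : ℕ) : ℝ) ^ 2 = (K : ℝ) ^ 2 * (z : ℝ) ^ ((2 * B : ℕ)) := by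
        push_cast
        rw [mul_pow, ← pow_mul, mul_comm B 2]
      rw [h3]
      have h4 : (z : ℝ) ^ ((2 * B : ℕ)) ≤ (X : ℝ) ^ (1 / 8 : ℝ) := by
        calc (z : ℝ) ^ ((2 * B : ℕ)) ≤ ((X : ℝ) ^ h2) ^ ((2 * B : ℕ)) :=
              pow_le_pow_left₀ hz0.le hzX _
          _ = (X : ℝ) ^ (h2 * (2 * B : ℕ)) := by
              rw [← Real.rpow_natCast, ← Real.rpow_mul hX0.le]
          _ ≤ (X : ℝ) ^ (1 / 8 : ℝ) := by
              apply Real.rpow_le_rpow_of_exponent_le hXr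
              push_cast
              nlinarith
      calc (K : ℝ) ^ 2 * (z : ℝ) ^ ((2 * B : ℕ))
          ≤ (X : ℝ) ^ (1 / 8 : ℝ) * (X : ℝ) ^ (1 / 8 : ℝ) :=
            mul_le_mul e1 h4 (by positivity) (by positivity)
        _ = (X : ℝ) ^ (1 / 2 - 1 / 4 : ℝ) := by
            rw [← Real.rpow_add hX0]
            norm_num
    have hva' := hVA X e3 id (primesTo z) z H X D lam Y hadm hDsub hlam1 hzX hXH hsum
      (by rw [← two_mul]; exact hY)
    have heq : ∑ S ∈ D, |E S| =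
        ∑ y ∈ Y, ∑ r ∈ range H, ∑ T ∈ D, lam T * (ind id T (y + r) - den id T) := by
      have h3 : ∀ S, |E S| = lam S * E S := by
        intro S
        simp only [hlam]
        split_ifs with h
        · rw [abs_of_nonneg h, one_mul]
        · rw [abs_of_neg (not_le.mp h)]; ring
      calc ∑ S ∈ D, |E S| = ∑ S ∈ D, ∑ y ∈ Y, ∑ r ∈ range H,
            lam S * (ind id S (y + r) - den id S) := by
            refine Finset.sum_congr rfl fun S _ => ?_
            rw [h3, hE', Finset.mul_sum]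
            refine Finset.sum_congr rfl fun y _ => ?_
            rw [Finset.mul_sum]
        _ = ∑ y ∈ Y, ∑ S ∈ D, ∑ r ∈ range H, lam S * (ind id S (y + r) - den id S) :=
            Finset.sum_comm
        _ = _ := by
            refine Finset.sum_congr rfl fun y _ => ?_
            exact Finset.sum_comm
    rw [heq]
    exact (le_abs_self _).trans hva'
  have hlogz : Real.log z ≤ Real.log X := by
    apply Real.log_le_log hz0
    refine hzX.trans ?_
    calc (X : ℝ) ^ h2 ≤ (X : ℝ) ^ (1 : ℝ) := Real.rpow_le_rpow_of_exponent_le hXr (by linarith)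
      _ = X := Real.rpow_one _
  have hlogz0 : 0 ≤ Real.log z := Real.log_nonneg hz1
  have hfin : K * (1 + Real.log z) * ∑ S ∈ D, |E S| ≤ (X : ℝ) ^ (1 - δ' / 2) * H := by
    calc K * (1 + Real.log z) * ∑ S ∈ D, |E S|
        ≤ K * (1 + Real.log X) * ((X : ℝ) ^ (1 - δ') * H) := by
          apply mul_le_mul _ herr (Finset.sum_nonneg fun _ _ => abs_nonneg _)
          · have : 0 ≤ Real.log X := hlogz0.trans hlogz
            positivity
          · apply mul_le_mul_of_nonneg_left (by linarith) (Nat.cast_nonneg _)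
      _ ≤ (X : ℝ) ^ (δ' / 2) * ((X : ℝ) ^ (1 - δ') * H) := by
          apply mul_le_mul_of_nonneg_right e2
          positivity
      _ = (X : ℝ) ^ (1 - δ' / 2) * H := by
          rw [← mul_assoc, ← Real.rpow_add hX0]
          congr 2
          ring
  have hmain : ∑ m ∈ (Ico X (3 * X)).filter (fun m => ∀ p ∈ primesTo z, ¬ hit p m), w m =
      ∑ y ∈ Y, ∑ r ∈ range H,
        (if ∀ q ∈ primesTo z, ¬ (y + r) % q ^ 2 < q then (1 : ℝ) else 0) := by
    simp only [hw]
    rw [LOW_swap X H Y hY hHX]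
  have habs : |(∑ m ∈ (Ico X (3 * X)).filter (fun m => ∀ p ∈ primesTo z, ¬ hit p m), w m) -
      (Y.card * H : ℝ) * V z| ≤ 1 / 2 * ((Y.card * H : ℝ) * V z) + K * (1 + Real.log z) *
        ∑ S ∈ D, |E S| := by
    convert hfl
  rw [hmain] at habs
  have habs' := (abs_le.mp habs).1
  have hgoal : 1 / 2 * (Y.card * H * V z) - (X : ℝ) ^ (1 - δ' / 2) * H ≤
      ∑ y ∈ Y, ∑ r ∈ range H,
        (if ∀ q ∈ primesTo z, ¬ (y + r) % q ^ 2 < q then (1 : ℝ) else 0) := by
    linarith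
  convert hgoal using 1

end Pool.Agent.H77R5.EP
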